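import Pool.Agent.Helper7_ND.All2

/-!
# Nuclear dimension of extensions: `dim_nuc(E) ≤ max (dim_nuc(I), dr(D))`

Let `0 → I → E → D → 0` be a short exact sequence of C*-algebras (no separability, no units). Then
the nuclear dimension of `E` is at most the maximum of the nuclear dimension of `I` and the
decomposition rank of `D`. Since `max (dim_nuc(I), dim_nuc(D)) ≤ dim_nuc(E)` always holds, this gives
`dim_nuc(E) = max (dim_nuc(I), dim_nuc(D))` whenever `dr(D) = dim_nuc(D)`, or `dr(D) ≤ dim_nuc(I)`.

## Proof

The approximations `∑ φ_j ψ_j` of `D` satisfy `φ_j ψ_j(g) ≈ φ_j(1) g` for each colour `j` (an argument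
of Kirchberg and Winter). Lift `φ_j` to order zero maps `Φ_j` into `E` with `Φ_j(1) ≤ 1 - t²`, where
`t` is quasi-central in `I` and `g ≈ ∑ Φ_j ψ_j(g) + t g t`. Each colour `j` of `D` is merged with the
colour `j` of a system of `I`, at the same time. Let `c_j = Φ_j(1)` and let `H_j` be the image of
the unit under the up map after the down map of the colour `j` of `I`, so that `∑ H_j` is
approximately a quasi-central element of `I` which is a unit for `t`. Write
`g ≈ ∑_j ((1 - H_j) Φ_j ψ_j(g) + H_j (t g t + Φ_j ψ_j(g)))`. Where `c_j` is not small,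
`t g t + Φ_j ψ_j(g) ≈ (t² + c_j) g ≈ W_j Φ_j ψ_j(g)` with `W_j = (t² + c_j) / c_j`, so that there the
`j`-th summand is the image of `ψ_j(g)` under an order zero map of the finite-dimensional algebra of
the colour `j` of `D`. This part is separated from the rest by a projection in the commutant of an
order zero map into a reduced product of finite-dimensional algebras (cuts of commuting
self-adjoint elements, after Lin and Friis–Rørdam), and the rest is factored through the
finite-dimensional algebra of the colour `j` of `I`.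
-/

set_option autoImplicit false

open scoped Matrix.Norms.L2Operator ENNReal Matrix

noncomputable section

namespace Pool.Agent.Results.MP_30b5b4_an.NucDimDecRank

open Pool.Agent.W659.EC Pool.Agent.Helper7_ND

/-- For every short exact sequence `0 → I → E → D → 0` of C*-algebras,
`dim_nuc(E) ≤ max (dim_nuc(I), dr(D))`. -/
theorem result (I E D : Type) [NonUnitalCStarAlgebra I] [NonUnitalCStarAlgebra E]
    [NonUnitalCStarAlgebra D] (ι : I →⋆ₙₐ[ℂ] E) (π : E →⋆ₙₐ[ℂ] D) (hι : Function.Injective ι)
    (hπ : Function.Surjective π) (hex : ∀ e : E, π e = 0 ↔ ∃ i : I, ι i = e) :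
    nucDim E ≤ max (nucDim I) (decRank D) := by
  rcases eq_or_ne (max (nucDim I) (decRank D)) ⊤ with hN | hN
  · rw [hN]; exact le_top
  obtain ⟨n, hn⟩ := ENat.ne_top_iff_exists.1 hN
  have hI : nucDim I ≤ (n : ℕ∞) := hn ▸ le_max_left _ _
  have hD : decRank D ≤ (n : ℕ∞) := hn ▸ le_max_right _ _
  have h1 := all_CORE3 I E D ι π ⟨hι, hπ, hex⟩ (Option (Fin n)) (J_ND.t_ND.1 I n hI)
    (all_DRN D n hD)
  have h2 := J_ND.t_ND.2 E (Fin n) h1
  rw [Fintype.card_fin] at h2
  exact h2.trans hn.le

end Pool.Agent.Results.MP_30b5b4_an.NucDimDecRank
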