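import Pool.Agent.Helper7_ND.Cls

/-!
# Nuclear dimension of extensions by ideals of real rank zero

For `N ∈ {0, 1, …, ∞}` let `𝒞_N` be the smallest class of C*-algebras which contains all
C*-algebras of real rank zero and nuclear dimension at most `N` and is closed under extensions and
under limits of closed ideals (`RRClass N`). We prove: if `0 → I → E → D → 0` is a short exact
sequence of C*-algebras (no separability, no units) with `I ∈ 𝒞_N` and `dim_nuc(D) ≤ N`, then
`dim_nuc(E) ≤ N`.

Since `max (dim_nuc(I), dim_nuc(D)) ≤ dim_nuc(E)` always holds, this gives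
`dim_nuc(E) = max (dim_nuc(I), dim_nuc(D))` for every extension of an arbitrary C*-algebra `D` by
a C*-algebra `I` of real rank zero, for example for `I` the stabilization of an irrational rotation
algebra and `D` a Cuntz algebra. The class `𝒞_N` contains the C*-algebras with a composition series
with factors of real rank zero and nuclear dimension at most `N`; more precisely, `I` is in `𝒞_N`
if every nonzero quotient of `I` has a nonzero closed ideal in `𝒞_N` (`RRClass.scattered`).

## Proof

In a C*-algebra `I` of real rank zero the order zero maps `F_c → I` of a coloured approximation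
can be replaced by homomorphisms (each block of an order zero map is `x_i x_j^*` with
`x_i^* x_i = k`, and `k` is cut into pieces by projections of the hereditary subalgebra it generates).
Let `Φ_j` be order zero lifts to `E` of the order zero maps `φ_j` of `D`, with
`Φ_j(1) + t² ≤ 1` up to a small error for a quasi-central `t` in `I`, and let `N_c` be the down maps
of `I` cut by a quasi-central element. In the limit algebra, `P_c (N_c (z)) = P_c (N_c (1)) z` for
the injective homomorphism `P_c` on the product of the matrix algebras `F_c`, and this product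
has the spectral projections of `N_c (1)`, `N_c (Φ_c (1))` and `N_c (t²)`. Hence there is a projection
in it which commutes with `Φ_c`, under which `Φ_c` is transported to the matrix algebras, and off
which `Φ_c` is orthogonal to the part of colour `c` over `t²`. The sum of the two parts is an order
zero map of colour `c`. So coloured approximations lift from every quotient `E / I` to `E` with
the same number of colours. This lifting property of `I` passes to extensions and to limits of
closed ideals.
-/

set_option autoImplicit false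

open scoped Matrix.Norms.L2Operator ENNReal Matrix

noncomputable section

namespace Pool.Agent.Results.MP_30b5b4_an.NucDimRealRankZero

open Pool.Agent.W659.EC

/-- real rank zero: the self-adjoint elements are limits of real linear combinations of pairwise
orthogonal projections -/
def RealRankZero (A : Type) [NonUnitalCStarAlgebra A] : Prop :=
  ∀ (a : A) (ε : ℝ), star a = a → 0 < ε → ∃ (n : ℕ) (p : Fin n → A) (c : Fin n → ℝ),
    (∀ i, star (p i) = p i ∧ p i * p i = p i) ∧ (∀ i j, i ≠ j → p i * p j = 0) ∧
      ‖∑ i, (c i : ℂ) • p i - a‖ ≤ ε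

/-- `0 → I → E → D → 0` is exact -/
def Exact {I E D : Type} [NonUnitalCStarAlgebra I] [NonUnitalCStarAlgebra E]
    [NonUnitalCStarAlgebra D] (ι : I →⋆ₙₐ[ℂ] E) (π : E →⋆ₙₐ[ℂ] D) : Prop :=
  Function.Injective ι ∧ Function.Surjective π ∧ ∀ e : E, π e = 0 ↔ ∃ i : I, ι i = e

/-- the range of the injective homomorphism `κ` is a (closed, two-sided) ideal -/
def ClosedIdeal {K A : Type} [NonUnitalCStarAlgebra K] [NonUnitalCStarAlgebra A]
    (κ : K →⋆ₙₐ[ℂ] A) : Prop :=
  Function.Injective κ ∧ ∀ (x : A) (k : K), (∃ k', κ k' = x * κ k) ∧ ∃ k', κ k' = κ k * x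

/-- The smallest class of C*-algebras which contains all C*-algebras of real rank zero and nuclear
dimension at most `N` and is closed under extensions and under limits of closed ideals. -/
def RRClass (N : ℕ∞) (I : Type) [NonUnitalCStarAlgebra I] : Prop :=
  ∀ P : (A : Type) → [NonUnitalCStarAlgebra A] → Prop,
    (∀ (A : Type) [NonUnitalCStarAlgebra A], RealRankZero A → nucDim A ≤ N → P A) →
    (∀ (K A L : Type) [NonUnitalCStarAlgebra K] [NonUnitalCStarAlgebra A]
      [NonUnitalCStarAlgebra L] (κ : K →⋆ₙₐ[ℂ] A) (ρ : A →⋆ₙₐ[ℂ] L),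
      Exact κ ρ → P K → P L → P A) →
    (∀ (A : Type) [NonUnitalCStarAlgebra A],
      (∀ (C : Finset A) (δ : ℝ), 0 < δ → ∃ (K : Type) (_ : NonUnitalCStarAlgebra K)
        (κ : K →⋆ₙₐ[ℂ] A), ClosedIdeal κ ∧ P K ∧ ∀ c ∈ C, ∃ k : K, ‖κ k - c‖ ≤ δ) → P A) →
    P I

theorem RRClass.conv {N : ℕ∞} {I : Type} [NonUnitalCStarAlgebra I] (h : RRClass N I) :
    Pool.Agent.Helper7_ND.RRClass N I := by
  intro P b e l
  refine h P b (fun K A L _ _ _ κ ρ hx hK hL => e K A L κ ρ ⟨hx.1, hx.2.1, hx.2.2⟩ hK hL)
    (fun A _ hA => l A fun C δ hδ => ?_)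
  obtain ⟨K, iK, κ, h1, h2, h3⟩ := hA C δ hδ
  exact ⟨K, iK, κ, ⟨h1.1, fun x k => (h1.2 x k).1, fun x k => (h1.2 x k).2⟩, h2, h3⟩

/-- Let `RRClass N` be the smallest class of C*-algebras that contains all C*-algebras of real rank
zero and nuclear dimension at most `N` and is closed under extensions and limits of closed ideals.
For a short exact sequence `0 → I → E → D → 0` of C*-algebras with `I` in `RRClass N` and
`dim_nuc(D) ≤ N`, we have `dim_nuc(E) ≤ N`. -/
theorem result (I E D : Type) [NonUnitalCStarAlgebra I] [NonUnitalCStarAlgebra E]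
    [NonUnitalCStarAlgebra D] (ι : I →⋆ₙₐ[ℂ] E) (π : E →⋆ₙₐ[ℂ] D) (hex : Exact ι π)
    (N : ℕ∞) (hI : RRClass N I) (hD : nucDim D ≤ N) : nucDim E ≤ N :=
  Pool.Agent.Helper7_ND.RRClass.main ι π ⟨hex.1, hex.2.1, hex.2.2⟩ hI.conv hD

end Pool.Agent.Results.MP_30b5b4_an.NucDimRealRankZero
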