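import Pool.Agent.Helper7_ND.All

/-!
# Nuclear dimension of extensions: `dim_nuc(E) ≤ dim_nuc(I) + dim_nuc(D)`

Let `0 → I → E → D → 0` be a short exact sequence of C*-algebras (no separability, no units). Then
`dim_nuc(E) ≤ dim_nuc(I) + dim_nuc(D)`; the bound of Winter and Zacharias is
`dim_nuc(I) + dim_nuc(D) + 1`. Since `max (dim_nuc(I), dim_nuc(D)) ≤ dim_nuc(E)` always holds, the
extension has nuclear dimension equal to the maximum whenever `I` or `D` has nuclear dimension `0`.

## Proof

Write an element of `E` as `(1-t²)^{1/2} x (1-t²)^{1/2} + t x t` with `t` quasi-central in `I`. The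
colours of `D` are lifted to order zero maps into `(1-t²)E`, and the distinguished colour `Φ` of `D`
(on the finite-dimensional algebra `F`) is merged with the distinguished colour of `I`. Choose
`u, v` in `I` asymptotically commuting with `Φ(F)`, `ut = t`, `vu = u`. The compression of `Φ` by `v`,
followed by the down map `N` of the distinguished colour of `I`, is an order zero map from `F` to a
reduced product of finite-dimensional algebras (normalised, asymptotically order zero down maps).
Cuts of commuting self-adjoint elements in such reduced products (the argument of Friis and Rørdam for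
Lin's theorem) give a projection `p` in its commutant which separates the region where
`N(uΦ(1))` is at most about half of `N(vΦ(1))` from the region where `N(uΦ(1))` is large unless
`N(vΦ(1))` is small. The part under `p` is added to the map `(1-v²)^{1/2} Φ (1-v²)^{1/2}`, which stays
order zero; the rest is cut down to a corner whose up map is orthogonal to it.
-/

set_option autoImplicit false

open scoped Matrix.Norms.L2Operator ENNReal Matrix

noncomputable section

namespace Pool.Agent.Results.MP_30b5b4_an.NucDimSum

open Pool.Agent.W659.EC Pool.Agent.Helper7_ND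

/-- For every short exact sequence `0 → I → E → D → 0` of C*-algebras,
`dim_nuc(E) ≤ dim_nuc(I) + dim_nuc(D)`. -/
theorem result (I E D : Type) [NonUnitalCStarAlgebra I] [NonUnitalCStarAlgebra E]
    [NonUnitalCStarAlgebra D] (ι : I →⋆ₙₐ[ℂ] E) (π : E →⋆ₙₐ[ℂ] D) (hι : Function.Injective ι)
    (hπ : Function.Surjective π) (hex : ∀ e : E, π e = 0 ↔ ∃ i : I, ι i = e) :
    nucDim E ≤ nucDim I + nucDim D := by
  rcases eq_or_ne (nucDim I) ⊤ with h1 | h1
  · rw [h1, top_add]; exact le_top
  rcases eq_or_ne (nucDim D) ⊤ with h2 | h2
  · rw [h2, add_top]; exact le_top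
  obtain ⟨m, hm⟩ := ENat.ne_top_iff_exists.1 h1
  obtain ⟨n, hn⟩ := ENat.ne_top_iff_exists.1 h2
  have hI := J_ND.t_ND.1 I m hm.symm.le
  have hD := J_ND.t_ND.1 D n hn.symm.le
  have hE := all_MAIN I E D ι π ⟨hι, hπ, hex⟩ (Fin m) (Fin n) hI hD
  have h3 := J_ND.t_ND.2 E (Fin n ⊕ Fin m) hE
  refine h3.trans (le_of_eq ?_)
  rw [← hm, ← hn, Fintype.card_sum, Fintype.card_fin, Fintype.card_fin, Nat.cast_add, add_comm]

end Pool.Agent.Results.MP_30b5b4_an.NucDimSum
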