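import Pool.Agent.Helper7_ND.All2

/-!
# Nuclear dimension of extensions by tame quotients

Let `0 → I → E → D → 0` be a short exact sequence of C*-algebras (no separability, no units) and
`N ∈ {0, 1, …, ∞}` with `dim_nuc(I) ≤ N` and `dim_nuc(D) ≤ N`. Suppose that every nonzero quotient `A`
of `E / (I + I^⊥)` (a quotient of `D`) has a nonzero abelian element, that is, a positive `a` with
`a A a` commutative, or a nonzero closed ideal `K` with `dim_nuc(K) = 0` or `dr(K) ≤ N`. Then
`dim_nuc(E) ≤ N`.

Since `max (dim_nuc(I), dim_nuc(D)) ≤ dim_nuc(E)` always holds, this gives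
`dim_nuc(E) = max (dim_nuc(I), dim_nuc(D))` for all extensions by quotients `D` of type I, and more
generally by quotients `D` with a composition series whose factors are of type I, AF, or of
decomposition rank at most `max (dim_nuc(I), dim_nuc(D))`.

## Proof

By Zorn's lemma there is a largest closed ideal `K` of `E` with `dim_nuc(K) ≤ N` among those
containing `I + I^⊥` (chains: local approximation by hereditary subalgebras). If `K ≠ E`, the quotient
`E / K` has an ideal as in the hypothesis; its preimage `K'` in `E` is an extension by this ideal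
of `K`. For ideals of nuclear dimension zero, `dim_nuc(K') ≤ dim_nuc(K) + 0`. For ideals of
decomposition rank at most `N`, `dim_nuc(K') ≤ N` by the theorem of the file `NucDimDecRank`. An
abelian element generates an ideal `L` with a full commutative hereditary subalgebra `B` of dimension
at most `N` (as `B` is a hereditary subalgebra of a quotient of `D`), and `L` has
approximations with commuting colours and `φ_j ψ_j(g) ≈ φ_j(1) g` made from partitions of unity of `B`
with `N + 1` colours, to which the same merging argument applies.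
-/

set_option autoImplicit false

open scoped Matrix.Norms.L2Operator ENNReal Matrix

noncomputable section

namespace Pool.Agent.Results.MP_30b5b4_an.NucDimTame

open Pool.Agent.W659.EC Pool.Agent.Helper7_ND

/-- For a short exact sequence `0 → I → E → D → 0` of C*-algebras and `N` with `dim_nuc(I) ≤ N` and
`dim_nuc(D) ≤ N`: if every nonzero quotient `A` of `E` by an ideal containing `I` and the
annihilator of `I` has a nonzero abelian element or a nonzero closed ideal of nuclear dimension
`0` or of decomposition rank at most `N`, then `dim_nuc(E) ≤ N`. -/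
theorem result (I E D : Type) [NonUnitalCStarAlgebra I] [NonUnitalCStarAlgebra E]
    [NonUnitalCStarAlgebra D] (ι : I →⋆ₙₐ[ℂ] E) (π : E →⋆ₙₐ[ℂ] D) (hι : Function.Injective ι)
    (hπ : Function.Surjective π) (hex : ∀ e : E, π e = 0 ↔ ∃ i : I, ι i = e)
    (N : ℕ∞) (hI : nucDim I ≤ N) (hD : nucDim D ≤ N)
    (hA : ∀ (A : Type) [NonUnitalCStarAlgebra A] (θ : E →⋆ₙₐ[ℂ] A), Function.Surjective θ →
      Nontrivial A → (∀ i, θ (ι i) = 0) → (∀ e, (∀ i, e * ι i = 0) → θ e = 0) →
      (∃ a : A, a ≠ 0 ∧ (∃ b : A, a = star b * b) ∧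
        ∀ x y : A, (a * x * a) * (a * y * a) = (a * y * a) * (a * x * a)) ∨
      ∃ (K : Type) (_ : NonUnitalCStarAlgebra K) (κ : K →⋆ₙₐ[ℂ] A), Function.Injective κ ∧
        (∀ (x : A) (k : K), (∃ k', κ k' = x * κ k) ∧ ∃ k', κ k' = κ k * x) ∧ Nontrivial K ∧
        (nucDim K = 0 ∨ decRank K ≤ N)) :
    nucDim E ≤ N := by
  refine all_MAIN4 I E D ι π ⟨hι, hπ, hex⟩ N hI hD ?_
  intro A _ θ h1 h2 h3 h4
  rcases hA A θ h1 h2 h3 h4 with ⟨a, ha, hp, hab⟩ | ⟨K, iK, κ, k1, k2, k3, k4⟩
  · exact Or.inl ⟨a, ha, hp, hab⟩
  · exact Or.inr ⟨K, iK, κ, ⟨k1, fun e i => (k2 e i).1, fun e i => (k2 e i).2⟩, k3,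
      k4.imp (fun h => h.le) id⟩

end Pool.Agent.Results.MP_30b5b4_an.NucDimTame
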